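import Pool.Agent.Helper29.BL.GoalsE

/-!
# Project BL, packet FIN: Vojta's inequality for heights with the standard properties.
-/

set_option autoImplicit false

namespace Pool.Agent.Helper91.BL

open Pool.Agent.Helper29.BL WeierstrassCurve Height Height.AdmissibleAbsValues

theorem fin_of (h : NDIM) : FIN := by
  intro K _ _ _ n hn W _ Γ hΓ S hS Z₀ hK hN hH c₀ C₀ hZ₀ hc₀ hup hN0 hlow δ hδ
  obtain ⟨Z₁, C₁, hZ₁, hB₁⟩ := h K n hn W Γ hΓ S hS (fun _ => C₀) (δ * c₀) (mul_pos hδ hc₀)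
  refine ⟨Z₀ * Z₁, max (C₀ + δ * C₀) C₁, mul_ne_zero hZ₀ hZ₁, fun T hT B hB => ?_⟩
  have hlog : 0 ≤ Real.log T ^ (2 * ((n + 1) / 2)) :=
    pow_nonneg (Real.log_nonneg (by linarith)) _
  refine (hB₁ T hT B fun z hz => ?_).trans
    (mul_le_mul_of_nonneg_right (le_max_right _ _) hlog)
  obtain ⟨h1, h2, h3, h4⟩ := hB z hz
  refine ⟨h1, h2, fun a ha => ?_, ?_⟩
  · obtain ⟨h5, h6⟩ := h3 a (Or.inr ha)
    refine ⟨h5, ?_⟩
    rw [map_mul] at h6
    exact right_ne_zero_of_mul h6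
  · have hzS : z ∉ S := by
      intro hz'
      exact (h3 z (Or.inr hz')).1 ⟨0, by omega⟩ rfl
    have h7 := hup z hzS
    have h8 := hN0 z
    have h9 : MvPolynomial.eval (fun i => xc (z i)) Z₀ ≠ 0 := by
      have h10 := (h3 0 (Or.inl rfl)).2
      rw [map_mul] at h10
      have h11 : (fun i => xc (z i - (0 : ∀ i, (W i).Point) i)) = fun i => xc (z i) := by
        funext i
        rw [Pi.zero_apply, sub_zero]
      rw [h11] at h10
      exact left_ne_zero_of_mul h10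
    have h12 := hlow z h9
    have h13 := le_max_left (C₀ + δ * C₀) C₁
    have h14 : δ * (c₀ * hL z - C₀) ≤ δ * hH z := mul_le_mul_of_nonneg_left h12 hδ.le
    rw [← Finset.mul_sum]
    nlinarith

end Pool.Agent.Helper91.BL
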